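import Pool.Agent.Helper230.FEq2

/-!
# Family equivalence of grammar forms is undecidable

Letters are natural numbers; a language is a set of words over the natural numbers.
-/

namespace Pool.Agent.Results.MP_3cd25e_lc.Undecidable

/-- A context-free grammar with disjoint finite sets `N` (nonterminals) and `T` (terminals) of
letters, start letter `S` and finite production set `P` (a pair `(A, β)` is the production
`A → β`), without productions `A → λ`. -/
structure Grammar where
  N : Finset ℕ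
  T : Finset ℕ
  S : ℕ
  P : Finset (ℕ × List ℕ)
  disj : Disjoint N T
  start_mem : S ∈ N
  wf : ∀ p ∈ P, p.1 ∈ N ∧ p.2 ≠ [] ∧ ∀ x ∈ p.2, x ∈ N ∨ x ∈ T

/-- One derivation step. -/
def Grammar.Step (G : Grammar) (u v : List ℕ) : Prop :=
  ∃ (l r : List ℕ) (A : ℕ) (β : List ℕ), (A, β) ∈ G.P ∧ u = l ++ A :: r ∧ v = l ++ β ++ r

/-- The language `L(G)`. -/
def Grammar.language (G : Grammar) : Set (List ℕ) :=
  {w | (∀ x ∈ w, x ∈ G.T) ∧ Relation.ReflTransGen G.Step [G.S] w}

/-- `G'` is the interpretation of `G` given by the letter assignment `σ` (and by the choice of a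
start letter in `σ(S)` and of a subset of `σ(P)`). -/
structure IsInterpretation (G G' : Grammar) (σ : ℕ → Finset ℕ) : Prop where
  disjoint : ∀ x ∈ G.N ∪ G.T, ∀ y ∈ G.N ∪ G.T, x ≠ y → Disjoint (σ x) (σ y)
  nonterminals : G'.N = G.N.biUnion σ
  terminals : G'.T = G.T.biUnion σ
  start : G'.S ∈ σ G.S
  productions : ∀ p ∈ G'.P, ∃ q ∈ G.P,
    p.1 ∈ σ q.1 ∧ List.Forall₂ (fun x' x => x' ∈ σ x) p.2 q.2

/-- The grammatical family of `G`: the languages of all interpretations of `G`. -/
def family (G : Grammar) : Set (Set (List ℕ)) :=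
  {L | ∃ (G' : Grammar) (σ : ℕ → Finset ℕ), IsInterpretation G G' σ ∧ L = G'.language}

/-- Grammars as finite data: the lists of nonterminals, of terminals and of productions, and the
start letter. -/
abbrev Code : Type := List ℕ × List ℕ × List (ℕ × List ℕ) × ℕ

/-- The code `c` describes the grammar `G`. -/
def Encodes (c : Code) (G : Grammar) : Prop :=
  c.1.toFinset = G.N ∧ c.2.1.toFinset = G.T ∧ c.2.2.1.toFinset = G.P ∧ c.2.2.2 = G.S

open Pool.Agent.Helper230

theorem Grammar.not_mem {G : Grammar} {x : ℕ} (h : x ∈ G.N) : x ∉ G.T :=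
  fun h' => (Finset.disjoint_left.1 G.disj) h h'

def Grammar.dat (G : Grammar) : GDat where
  N := G.N
  T := G.T
  S := G.S
  P := G.P
  disj := fun _ h h' => G.not_mem h h'
  hS := G.start_mem
  wf := fun p hp => ⟨(G.wf p hp).1, (G.wf p hp).2.2⟩

theorem all_ters {Q : Type} {T' : Finset ℕ} (e : Q → ℕ) (he : ∀ q, e q ∉ T')
    (U : List (Q ⊕ ℕ)) (hw : ∀ x ∈ U.map (Sum.elim e id), x ∈ T') :
    U = (U.map (Sum.elim e id)).map Sum.inr := by
  induction U with
  | nil => rfl
  | cons x U ih =>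
    have ih' := ih (fun y hy => hw y (by rw [List.map_cons]; exact List.mem_cons_of_mem _ hy))
    cases x with
    | inl q => exact absurd (hw (e q) (by simp)) (he q)
    | inr x =>
      rw [List.map_cons, List.map_cons, ← ih']
      rfl

theorem lang_eq (G' : Grammar) {Q : Type} (e : Q → ℕ) (R : Set (Q × List (Q ⊕ ℕ))) (s : Q)
    (hs : G'.S = e s) (he : ∀ q, e q ∈ G'.N)
    (h1 : ∀ q β, (q, β) ∈ R → (e q, β.map (Sum.elim e id)) ∈ G'.P ∧
      ∀ x, Sum.inr x ∈ β → x ∈ G'.T)
    (h2 : ∀ q γ, (e q, γ) ∈ G'.P → ∃ β, (q, β) ∈ R ∧ γ = β.map (Sum.elim e id)) :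
    G'.language = {w | Der (ExR R) [Sum.inl s] w} := by
  ext w
  constructor
  · rintro ⟨hw, hd⟩
    have key : ∀ u, Relation.ReflTransGen G'.Step u w → ∀ U : List (Q ⊕ ℕ),
        u = U.map (Sum.elim e id) → (∀ x, Sum.inr x ∈ U → x ∈ G'.T) → Der (ExR R) U w := by
      intro u hu
      induction hu using Relation.ReflTransGen.head_induction_on with
      | refl =>
        intro U hU _
        have : U = w.map Sum.inr := by
          subst hU
          exact all_ters (T' := G'.T) e (fun q => G'.not_mem (he q)) U hw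
        rw [this]
        exact Der.of_ters w
      | head hstep _ ih =>
        intro U hU hT
        obtain ⟨l, r, A, β, hA, rfl, rfl⟩ := hstep
        obtain ⟨U1, U2, rfl, h3, h4⟩ := List.map_eq_append_iff.1 hU.symm
        obtain ⟨x, U3, rfl, h5, h6⟩ := List.map_eq_cons_iff.1 h4
        cases x with
        | inr x =>
          exfalso
          have h7 : x = A := h5
          subst h7
          exact G'.not_mem (G'.wf _ hA).1 (hT x (by simp))
        | inl q =>
          have h7 : e q = A := h5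
          subst h7
          obtain ⟨β0, hβ0, rfl⟩ := h2 q β hA
          have h8 := ih (U1 ++ β0 ++ U3) (by simp [h3, h6]) (by
            intro x hx
            rw [List.mem_append, List.mem_append] at hx
            rcases hx with (hx | hx) | hx
            · exact hT x (List.mem_append_left _ hx)
            · exact (h1 _ _ hβ0).2 x hx
            · exact hT x (List.mem_append_right _ (List.mem_cons_of_mem _ hx)))
          exact Der.of_step ⟨U1, U3, q, β0, rfl, hβ0, rfl⟩ h8
    exact key _ hd [Sum.inl s] (by simp [hs]) (by simp)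
  · rintro hd
    have hd' := (rtg_iff_Der _ _).2 hd
    obtain ⟨n, hn⟩ := hd
    refine ⟨?_, ?_⟩
    · exact DerN_letters (D := G'.T) (fun r hr x hx => (h1 r.1 r.2 hr).2 x hx) hn (by simp)
    · have h3 : ∀ u v, Step (ExR R) u v →
          G'.Step (u.map (Sum.elim e id)) (v.map (Sum.elim e id)) := by
        rintro _ _ ⟨pre, suf, q, x, rfl, hx, rfl⟩
        exact ⟨pre.map (Sum.elim e id), suf.map (Sum.elim e id), e q, x.map (Sum.elim e id),
          (h1 _ _ hx).1, by simp, by simp⟩
      have h4 := Relation.ReflTransGen.lift (r := Step (ExR R)) (p := G'.Step)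
        (fun u => u.map (Sum.elim e id)) h3 _ _ hd'
      have h5 : (w.map (Sum.inr : ℕ → Q ⊕ ℕ)).map (Sum.elim e id) = w := by
        rw [List.map_map]
        conv_rhs => rw [← List.map_id w]
        rfl
      simp only [Function.onFun] at h4
      rw [h5] at h4
      simpa [hs] using h4

theorem fam_gen {G : Grammar} {L : Set (List ℕ)} (hL : L ∈ family G) :
    ∃ τ : ℕ → ℕ, Gen G.dat τ L := by
  classical
  obtain ⟨G', σ, hI, rfl⟩ := hL
  have hN : ∀ q : {x // x ∈ G'.N}, ∃ A ∈ G.N, q.1 ∈ σ A := by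
    rintro ⟨q, hq⟩
    rw [hI.nonterminals, Finset.mem_biUnion] at hq
    exact hq
  choose ν hν1 hν2 using hN
  have hT : ∀ x : ℕ, ∃ t, x ∈ G'.T → t ∈ G.T ∧ x ∈ σ t := by
    intro x
    by_cases hx : x ∈ G'.T
    · rw [hI.terminals, Finset.mem_biUnion] at hx
      obtain ⟨t, ht, hxt⟩ := hx
      exact ⟨t, fun _ => ⟨ht, hxt⟩⟩
    · exact ⟨0, fun h => absurd h hx⟩
  choose τ hτ using hT
  have huniq : ∀ z x y, x ∈ G.N ∪ G.T → y ∈ G.N ∪ G.T → z ∈ σ x → z ∈ σ y → x = y := by
    intro z x y hx hy h1 h2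
    by_contra hne
    exact (Finset.disjoint_left.1 (hI.disjoint x hx y hy hne)) h1 h2
  let e : {x // x ∈ G'.N} → ℕ := Subtype.val
  let R : Set ({x // x ∈ G'.N} × List ({x // x ∈ G'.N} ⊕ ℕ)) :=
    {r | (e r.1, r.2.map (Sum.elim e id)) ∈ G'.P ∧ ∀ x, Sum.inr x ∈ r.2 → x ∈ G'.T}
  refine ⟨τ, {x // x ∈ G'.N}, inferInstance, ν, ⟨G'.S, G'.start_mem⟩, R, G'.T, ?_, hν1, ?_, ?_, ?_,
    ?_⟩
  · exact huniq G'.S _ _ (Finset.mem_union_left _ (hν1 _)) (Finset.mem_union_left _ G.start_mem)
      (hν2 ⟨G'.S, G'.start_mem⟩) hI.start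
  · intro x hx
    exact (hτ x hx).1
  · rintro ⟨q, β⟩ ⟨hr, hx⟩
    obtain ⟨⟨A, γ⟩, hq, hA, hF⟩ := hI.productions _ hr
    dsimp only at hA hF hx ⊢
    have hwf := G.wf _ hq
    have h1 : ν q = A := huniq q.1 _ _ (Finset.mem_union_left _ (hν1 q))
      (Finset.mem_union_left _ hwf.1) (hν2 q) hA
    have h2 : β.map (Sum.elim ν τ) = γ := by
      have hγ : ∀ x ∈ γ, x ∈ G.N ∪ G.T := fun x hx => Finset.mem_union.2 (hwf.2.2 x hx)
      clear hr hq hwf
      induction β generalizing γ with
      | nil =>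
        cases γ with
        | nil => rfl
        | cons y γ => simp at hF
      | cons x β ih =>
        cases γ with
        | nil => simp at hF
        | cons y γ =>
          rw [List.map_cons, List.forall₂_cons] at hF
          rw [List.map_cons, ih (fun y hy => hx y (List.mem_cons_of_mem _ hy)) γ hF.2
            (fun y hy => hγ y (List.mem_cons_of_mem _ hy))]
          congr 1
          cases x with
          | inl q' =>
            exact huniq q'.1 _ _ (Finset.mem_union_left _ (hν1 q')) (hγ y List.mem_cons_self)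
              (hν2 q') hF.1
          | inr x =>
            have hxT := hx x List.mem_cons_self
            exact huniq x _ _ (Finset.mem_union_right _ (hτ x hxT).1)
              (hγ y List.mem_cons_self) (hτ x hxT).2 hF.1
    rw [h1, h2]
    exact hq
  · rintro ⟨q, β⟩ ⟨_, hx⟩ x h
    exact hx x h
  · refine lang_eq G' e R _ rfl (fun q => q.2) (fun q β h => ⟨h.1, h.2⟩) ?_
    intro q γ hγ
    have hwf := (G'.wf _ hγ).2.2
    let lf : ℕ → {x // x ∈ G'.N} ⊕ ℕ := fun x => if h : x ∈ G'.N then Sum.inl ⟨x, h⟩ else Sum.inr x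
    have h1 : (γ.map lf).map (Sum.elim e id) = γ := by
      rw [List.map_map]
      conv_rhs => rw [← List.map_id γ]
      apply List.map_congr_left
      intro x _
      simp only [Function.comp_apply, lf]
      split_ifs <;> rfl
    refine ⟨γ.map lf, ⟨?_, ?_⟩, h1.symm⟩
    · dsimp only
      rw [h1]; exact hγ
    · intro x hx
      obtain ⟨y, hy, hxy⟩ := List.mem_map.1 hx
      simp only [lf] at hxy
      split_ifs at hxy with h
      have : y = x := by simpa using hxy
      subst this
      rcases hwf y hy with h2 | h2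
      · exact absurd h2 h
      · exact h2

theorem finite_words {α : Type} (E : Set α) (hE : E.Finite) (r : ℕ) :
    {w : List α | (∀ x ∈ w, x ∈ E) ∧ w.length < r}.Finite := by
  have : Finite E := hE
  have h : {w : List α | (∀ x ∈ w, x ∈ E) ∧ w.length < r} ⊆
      (fun w : List E => w.map Subtype.val) '' {w : List E | w.length < r} := by
    rintro w ⟨hw, hr⟩
    refine ⟨w.attach.map (fun x => ⟨x.1, hw x.1 x.2⟩), ?_, ?_⟩
    · simpa using hr
    · simp
  exact Set.Finite.subset (Set.Finite.image _ (List.finite_length_lt E r)) h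

theorem gen_fam {G : Grammar} {τ : ℕ → ℕ} {L : Set (List ℕ)} (hL : Gen G.dat τ L) :
    L ∈ family G := by
  classical
  obtain ⟨Q, hQ, ν, s, R, D, hs, hN, hD, hR, hRD, rfl⟩ := hL
  have : Fintype Q := Fintype.ofFinite Q
  obtain ⟨idx, hidx⟩ := exists_injective_nat Q
  let M : ℕ := D.sup id + 1
  have hM : ∀ x ∈ D, x < M := fun x hx => Nat.lt_succ_of_le (Finset.le_sup (f := id) hx)
  let e : Q → ℕ := fun q => M + 2 * idx q
  let fr : ℕ → ℕ := fun y => M + 2 * y + 1
  have he : Function.Injective e := by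
    intro q q' h
    apply hidx
    simp only [e] at h
    omega
  let σ : ℕ → Finset ℕ := fun y =>
    if y ∈ G.N then (Finset.univ.filter (fun q => ν q = y)).image e ∪ {fr y}
    else if y ∈ G.T then D.filter (fun x => τ x = y) ∪ {fr y} else ∅
  have hσN : ∀ y ∈ G.N, ∀ z, z ∈ σ y ↔ (∃ q, ν q = y ∧ e q = z) ∨ z = fr y := by
    intro y hy z
    simp only [σ, if_pos hy, Finset.mem_union, Finset.mem_image, Finset.mem_filter,
      Finset.mem_univ, true_and, Finset.mem_singleton]
  have hσT : ∀ y ∈ G.T, ∀ z, z ∈ σ y ↔ (z ∈ D ∧ τ z = y) ∨ z = fr y := by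
    intro y hy z
    have hy' : y ∉ G.N := fun h => G.not_mem h hy
    simp only [σ, if_neg hy', if_pos hy, Finset.mem_union, Finset.mem_filter,
      Finset.mem_singleton]
  have hdisj : ∀ x ∈ G.N ∪ G.T, ∀ y ∈ G.N ∪ G.T, x ≠ y → Disjoint (σ x) (σ y) := by
    intro x hx y hy hne
    rw [Finset.disjoint_left]
    intro z hz1 hz2
    rcases Finset.mem_union.1 hx with hx | hx <;> rcases Finset.mem_union.1 hy with hy | hy
    · rw [hσN x hx] at hz1
      rw [hσN y hy] at hz2
      rcases hz1 with ⟨q, rfl, rfl⟩ | rfl <;> rcases hz2 with ⟨q', h1, h2⟩ | h2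
      · rw [he h2] at h1; exact hne h1
      · simp only [e, fr] at h2; omega
      · simp only [e, fr] at h2; omega
      · simp only [fr] at h2; omega
    · rw [hσN x hx] at hz1
      rw [hσT y hy] at hz2
      rcases hz1 with ⟨q, rfl, rfl⟩ | rfl <;> rcases hz2 with ⟨h1, h2⟩ | h2
      · have := hM _ h1; simp only [e] at this; omega
      · simp only [e, fr] at h2; omega
      · have := hM _ h1; simp only [fr] at this; omega
      · simp only [fr] at h2; omega
    · rw [hσT x hx] at hz1
      rw [hσN y hy] at hz2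
      rcases hz2 with ⟨q, rfl, rfl⟩ | rfl <;> rcases hz1 with ⟨h1, h2⟩ | h2
      · have := hM _ h1; simp only [e] at this; omega
      · simp only [e, fr] at h2; omega
      · have := hM _ h1; simp only [fr] at this; omega
      · simp only [fr] at h2; omega
    · rw [hσT x hx] at hz1
      rw [hσT y hy] at hz2
      rcases hz1 with ⟨h1, h2⟩ | h2 <;> rcases hz2 with ⟨h3, h4⟩ | h4
      · exact hne (h2.symm.trans h4)
      · have := hM _ h1; simp only [fr] at h4; omega
      · have := hM _ h3; simp only [fr] at h2; omega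
      · rw [h2] at h4; simp only [fr] at h4; omega
  have henc : ∀ β : List (Q ⊕ ℕ), (∀ x, Sum.inr x ∈ β → x ∈ D) → ∀ z ∈ β,
      Sum.elim e id z ∈ σ (Sum.elim ν τ z) := by
    intro β hβ z hz
    cases z with
    | inl q =>
      simp only [Sum.elim_inl]
      rw [hσN _ (hN q)]
      exact Or.inl ⟨q, rfl, rfl⟩
    | inr x =>
      simp only [Sum.elim_inr, id_eq]
      rw [hσT _ (hD x (hβ x hz))]
      exact Or.inl ⟨hβ x hz, rfl⟩
  -- finiteness of the rules
  have hRfin : R.Finite := by
    obtain ⟨n, hn⟩ : ∃ n, ∀ p ∈ G.P, p.2.length < n := by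
      refine ⟨G.P.sup (fun p => p.2.length) + 1, fun p hp => Nat.lt_succ_of_le ?_⟩
      exact Finset.le_sup (f := fun p : ℕ × List ℕ => p.2.length) hp
    have hE : (Set.range (Sum.inl : Q → Q ⊕ ℕ) ∪ Sum.inr '' (D : Set ℕ)).Finite :=
      (Set.finite_range _).union (Set.Finite.image _ D.finite_toSet)
    refine ((Set.finite_univ (α := Q)).prod (finite_words _ hE n)).subset ?_
    rintro ⟨q, β⟩ hr
    refine ⟨Set.mem_univ _, ?_, ?_⟩
    · intro x hx
      cases x with
      | inl q => exact Or.inl ⟨q, rfl⟩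
      | inr x => exact Or.inr ⟨x, hRD _ hr x hx, rfl⟩
    · have := hn _ (hR _ hr)
      simpa using this
  let P' : Finset (ℕ × List ℕ) :=
    hRfin.toFinset.image (fun r => (e r.1, r.2.map (Sum.elim e id)))
  have hP' : ∀ p, p ∈ P' ↔ ∃ q β, (q, β) ∈ R ∧ (e q, β.map (Sum.elim e id)) = p := by
    intro p
    simp only [P', Finset.mem_image, Set.Finite.mem_toFinset, Prod.exists]
  let G' : Grammar :=
    { N := G.N.biUnion σ
      T := G.T.biUnion σ
      S := e s
      P := P'
      disj := by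
        rw [Finset.disjoint_left]
        intro z h1 h2
        rw [Finset.mem_biUnion] at h1 h2
        obtain ⟨x, hx, hzx⟩ := h1
        obtain ⟨y, hy, hzy⟩ := h2
        have hne : x ≠ y := fun h => G.not_mem hx (h ▸ hy)
        exact (Finset.disjoint_left.1 (hdisj x (Finset.mem_union_left _ hx) y
          (Finset.mem_union_right _ hy) hne)) hzx hzy
      start_mem := Finset.mem_biUnion.2 ⟨ν s, hN s, by rw [hσN _ (hN s)]; exact Or.inl ⟨s, rfl, rfl⟩⟩
      wf := by
        intro p hp
        obtain ⟨q, β, hr, rfl⟩ := (hP' p).1 hp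
        refine ⟨?_, ?_, ?_⟩
        · exact Finset.mem_biUnion.2 ⟨ν q, hN q, by rw [hσN _ (hN q)]; exact Or.inl ⟨q, rfl, rfl⟩⟩
        · have := (G.wf _ (hR _ hr)).2.1
          simpa using this
        · intro x hx
          obtain ⟨z, hz, rfl⟩ := List.mem_map.1 hx
          have h1 := henc β (hRD _ hr) z hz
          cases z with
          | inl q' => exact Or.inl (Finset.mem_biUnion.2 ⟨ν q', hN q', h1⟩)
          | inr x' => exact Or.inr (Finset.mem_biUnion.2 ⟨τ x', hD _ (hRD _ hr _ hz), h1⟩) }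
  refine ⟨G', σ, ⟨hdisj, rfl, rfl, ?_, ?_⟩, ?_⟩
  · change e s ∈ σ G.S
    have h1 : G.S = ν s := hs.symm
    rw [h1, hσN _ (hN s)]
    exact Or.inl ⟨s, rfl, rfl⟩
  · intro p hp
    obtain ⟨q, β, hr, rfl⟩ := (hP' p).1 hp
    refine ⟨(ν q, β.map (Sum.elim ν τ)), hR _ hr, ?_, ?_⟩
    · change e q ∈ σ (ν q)
      rw [hσN _ (hN q)]; exact Or.inl ⟨q, rfl, rfl⟩
    · change List.Forall₂ _ (β.map (Sum.elim e id)) (β.map (Sum.elim ν τ))
      have h1 := henc β (hRD _ hr)
      rw [List.forall₂_map_left_iff, List.forall₂_map_right_iff, List.forall₂_same]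
      exact h1
  · symm
    refine lang_eq G' e R s rfl ?_ ?_ ?_
    · intro q
      exact Finset.mem_biUnion.2 ⟨ν q, hN q, by rw [hσN _ (hN q)]; exact Or.inl ⟨q, rfl, rfl⟩⟩
    · intro q β hr
      refine ⟨(hP' _).2 ⟨q, β, hr, rfl⟩, ?_⟩
      intro x hx
      exact Finset.mem_biUnion.2 ⟨τ x, hD _ (hRD _ hr _ hx), henc β (hRD _ hr) (Sum.inr x) hx⟩
    · intro q γ hγ
      obtain ⟨q', β, hr, heq⟩ := (hP' _).1 hγ
      rw [Prod.mk.injEq] at heq
      have := he heq.1
      subst this
      exact ⟨β, hr, heq.2.symm⟩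

open Pool.Agent.Helper230.FEq

section final

theorem range_code : ((Finset.range 8 : Finset ℕ) : Set ℕ) = Set.range code := by
  ext n
  simp only [Finset.coe_range, Set.mem_Iio, Set.mem_range]
  constructor
  · intro h
    interval_cases n
    · exact ⟨.S, rfl⟩
    · exact ⟨.M false, rfl⟩
    · exact ⟨.M true, rfl⟩
    · exact ⟨.A, rfl⟩
    · exact ⟨.J, rfl⟩
    · exact ⟨.D, rfl⟩
    · exact ⟨.X, rfl⟩
    · exact ⟨.Y, rfl⟩
  · rintro ⟨A, rfl⟩
    exact code_lt A

/-- the encoded rule -/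
def encRule (r : NT × List (NT ⊕ ℕ)) : ℕ × List ℕ := (code r.1, r.2.map (Sum.elim code id))

/-- The grammar with the rule set `R0`. -/
noncomputable def mkG (R0 : Set (NT × List (NT ⊕ ℕ))) (hfin : R0.Finite) (T : Finset ℕ)
    (hge : ∀ x ∈ T, 8 ≤ x) (hter : ∀ r ∈ R0, ∀ x, Sum.inr x ∈ r.2 → x ∈ T)
    (hne : ∀ r ∈ R0, r.2 ≠ []) : Grammar where
  N := Finset.range 8
  T := T
  S := 0
  P := hfin.toFinset.image encRule
  disj := by
    rw [Finset.disjoint_left]
    intro x hx hx'
    have := hge x hx'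
    have := Finset.mem_range.1 hx
    omega
  start_mem := by simp
  wf := by
    intro p hp
    obtain ⟨r, hr, rfl⟩ := Finset.mem_image.1 hp
    rw [Set.Finite.mem_toFinset] at hr
    refine ⟨Finset.mem_range.2 (code_lt _), ?_, ?_⟩
    · intro h
      exact hne r hr (List.map_eq_nil_iff.1 h)
    · intro x hx
      obtain ⟨y, hy, rfl⟩ := List.mem_map.1 hx
      cases y with
      | inl A => exact Or.inl (Finset.mem_range.2 (code_lt _))
      | inr x => exact Or.inr (hter r hr x hy)

theorem mkG_dat {R0 : Set (NT × List (NT ⊕ ℕ))} {hfin : R0.Finite} {T : Finset ℕ}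
    {hge : ∀ x ∈ T, 8 ≤ x} {hter : ∀ r ∈ R0, ∀ x, Sum.inr x ∈ r.2 → x ∈ T}
    {hne : ∀ r ∈ R0, r.2 ≠ []} : IsDat (mkG R0 hfin T hge hter hne).dat R0 (T : Set ℕ) where
  hN := range_code
  hT := rfl
  hS := rfl
  hP := by
    intro p
    change p ∈ ((hfin.toFinset.image encRule : Finset _) : Set (ℕ × List ℕ)) ↔ _
    rw [Finset.mem_coe, Finset.mem_image]
    constructor
    · rintro ⟨r, hr, rfl⟩
      exact ⟨r, (Set.Finite.mem_toFinset _).1 hr, rfl⟩
    · rintro ⟨r, hr, rfl⟩
      exact ⟨r, (Set.Finite.mem_toFinset _).2 hr, rfl⟩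
  ge := hge
  ter := hter

theorem mem_family {R0 : Set (NT × List (NT ⊕ ℕ))} {hfin : R0.Finite} {T : Finset ℕ}
    {hge : ∀ x ∈ T, 8 ≤ x} {hter : ∀ r ∈ R0, ∀ x, Sum.inr x ∈ r.2 → x ∈ T}
    {hne : ∀ r ∈ R0, r.2 ≠ []} (L : Set (List ℕ)) :
    L ∈ family (mkG R0 hfin T hge hter hne) ↔ ∃ τ : ℕ → ℕ, GenR R0 (T : Set ℕ) τ L := by
  constructor
  · intro h
    obtain ⟨τ, hτ⟩ := fam_gen h
    exact ⟨τ, (gen_iff mkG_dat τ L).1 hτ⟩
  · rintro ⟨τ, hτ⟩
    exact gen_fam ((gen_iff mkG_dat τ L).2 hτ)

variable {S : Type} [Fintype S] (Φ : S → S → List S) (K : S)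
  (t : Option ((S ⊕ S × S) ⊕ S) → ℕ)

/-- the terminal letters -/
noncomputable def tT : Finset ℕ := Finset.univ.image t

omit K Φ in
theorem mem_tT (a : Option ((S ⊕ S × S) ⊕ S)) : t a ∈ tT t :=
  Finset.mem_image_of_mem t (Finset.mem_univ a)

omit K Φ in
theorem rv_mem (y : List S) (x : ℕ) (hx : x ∈ rv t y) : x ∈ tT t := by
  simp only [rv, List.mem_reverse, List.mem_map] at hx
  obtain ⟨s, _, rfl⟩ := hx
  exact mem_tT t _

omit K Φ in
theorem pre_mem (x : ℕ) (hx : x ∈ pre t) : x ∈ tT t := by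
  simp only [pre, List.mem_map] at hx
  obtain ⟨s, _, rfl⟩ := hx
  exact mem_tT t _

theorem S2_ter : ∀ r ∈ S2 Φ K t, ∀ x, Sum.inr x ∈ r.2 → x ∈ tT t := by
  rintro ⟨A, α⟩ hr x hx
  change R2 Φ K t A α at hr
  change Sum.inr x ∈ α at hx
  have hq : ∀ q, ql t q ∈ tT t := fun q => mem_tT t _
  have hv : ∀ q, vl t q ∈ tT t := fun q => mem_tT t _
  have hd : dl t ∈ tT t := mem_tT t _
  cases hr <;>
    simp only [List.mem_cons, List.mem_append, List.mem_map, Sum.inr.injEq, reduceCtorEq,
      List.not_mem_nil, or_false, false_or, exists_eq_right] at hx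
  case start => exact pre_mem t x hx
  case m1 => rcases hx with rfl | hx; exacts [hq _, rv_mem t _ x hx]
  case m2 => rcases hx with rfl | hx; exacts [hq _, rv_mem t _ x hx]
  case m3 => rcases hx with rfl | hx; exacts [hq _, rv_mem t _ x hx]
  case m4 => rcases hx with rfl | hx; exacts [hd, rv_mem t _ x hx]
  case m5 => exact rv_mem t _ x hx
  case a1 => rw [hx]; exact hq _
  case a2 => rw [hx]; exact hv _
  case a3 => rw [hx]; exact hd
  case j1 => rw [hx]; exact hq _
  case j2 => rw [hx]; exact hd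
  case d1 => rw [hx]; exact hv _
  case d2 => rw [hx]; exact hd

omit K Φ in
theorem SF_ter : ∀ r ∈ SF t, ∀ x, Sum.inr x ∈ r.2 → x ∈ tT t := by
  rintro ⟨A, α⟩ hr x hx
  change RF t A α at hr
  change Sum.inr x ∈ α at hx
  have hq : ∀ q, ql t q ∈ tT t := fun q => mem_tT t _
  have hv : ∀ q, vl t q ∈ tT t := fun q => mem_tT t _
  have hd : dl t ∈ tT t := mem_tT t _
  cases hr <;>
    simp only [List.mem_cons, List.mem_append, List.mem_map, Sum.inr.injEq, reduceCtorEq,
      List.not_mem_nil, or_false, false_or, exists_eq_right] at hx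
  all_goals (rw [hx]; first | exact hq _ | exact hv _ | exact hd)

theorem S2_ne : ∀ r ∈ S2 Φ K t, r.2 ≠ [] := by
  rintro ⟨A, α⟩ hr
  change R2 Φ K t A α at hr
  cases hr <;> simp

omit K Φ in
theorem SF_ne : ∀ r ∈ SF t, r.2 ≠ [] := by
  rintro ⟨A, α⟩ hr
  change RF t A α at hr
  cases hr <;> simp

theorem len_rv (y : List S) : (rv t y).length = y.length := by simp [rv]

/-- finiteness of a set of rules with bounded length over finitely many letters -/
theorem fin_rules (R0 : Set (NT × List (NT ⊕ ℕ))) (n : ℕ)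
    (h1 : ∀ r ∈ R0, ∀ x, Sum.inr x ∈ r.2 → x ∈ tT t) (h2 : ∀ r ∈ R0, r.2.length < n) :
    R0.Finite := by
  have hE : (Set.range (Sum.inl : NT → NT ⊕ ℕ) ∪ Sum.inr '' ((tT t : Finset ℕ) : Set ℕ)).Finite :=
    (Set.finite_range _).union (Set.Finite.image _ (Finset.finite_toSet _))
  refine ((Set.finite_univ (α := NT)).prod (finite_words _ hE n)).subset ?_
  rintro ⟨q, β⟩ hr
  refine ⟨Set.mem_univ _, ?_, h2 _ hr⟩
  intro x hx
  cases x with
  | inl q => exact Or.inl ⟨q, rfl⟩
  | inr x => exact Or.inr ⟨x, h1 _ hr x hx, rfl⟩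

theorem S2_finite : (S2 Φ K t).Finite := by
  obtain ⟨m, hm⟩ : ∃ m, ∀ i q, (FEq.β Φ i q).length ≤ m := by
    refine ⟨(Finset.univ : Finset (Bool × (S ⊕ S × S))).sup (fun p => (FEq.β Φ p.1 p.2).length),
      fun i q => ?_⟩
    exact Finset.le_sup (f := fun p : Bool × (S ⊕ S × S) => (FEq.β Φ p.1 p.2).length)
      (Finset.mem_univ (i, q))
  have hk : ∀ i, (kk K i).length ≤ 1 := by intro i; cases i <;> simp [kk]
  refine fin_rules t _ ((pre t).length + m + 10) (S2_ter Φ K t) ?_
  rintro ⟨A, α⟩ hr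
  change R2 Φ K t A α at hr
  change α.length < _
  cases hr <;> simp only [List.length_append, List.length_cons, List.length_map, List.length_nil,
    len_rv]
  case start => omega
  case m1 i q => have := hm i q; omega
  case m2 i q u h _ => have := hm i q; omega
  case m3 i q u h => have := hm i q; omega
  case m4 i u h _ => have := hk i; omega
  case m5 i u h => have := hk i; omega
  all_goals omega

omit K Φ in
theorem SF_finite : (SF t).Finite := by
  refine fin_rules t _ 10 (SF_ter t) ?_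
  rintro ⟨A, α⟩ hr
  change RF t A α at hr
  change α.length < _
  cases hr <;> simp

omit K Φ in
theorem sr_ter (z : List S) : ∀ x, Sum.inr x ∈ (sr t z).2 → x ∈ tT t := by
  intro x hx
  simp only [sr, sw, List.mem_append, List.mem_map, Sum.inr.injEq, exists_eq_right,
    List.mem_singleton, reduceCtorEq, or_false] at hx
  rcases hx with hx | ⟨s, _, rfl⟩
  · exact pre_mem t x hx
  · exact mem_tT t _

theorem S1_ter (z : List S) : ∀ r ∈ S1 Φ K t z, ∀ x, Sum.inr x ∈ r.2 → x ∈ tT t := by
  rintro r (hr | rfl | hr)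
  · exact S2_ter Φ K t r hr
  · exact sr_ter t z
  · exact SF_ter t r hr

theorem S1_ne (z : List S) : ∀ r ∈ S1 Φ K t z, r.2 ≠ [] := by
  rintro r (hr | rfl | hr)
  · exact S2_ne Φ K t r hr
  · simp [sr]
  · exact SF_ne t r hr

theorem S1_finite (z : List S) : (S1 Φ K t z).Finite :=
  (S2_finite Φ K t).union ((SF_finite t).insert _)

theorem exists_pairs : ∃ (F : ℕ → Code × Code) (G₁ : ℕ → Grammar) (G₂ : Grammar) (p : ℕ → Prop),
    Computable F ∧ (∀ n, Encodes (F n).1 (G₁ n) ∧ Encodes (F n).2 G₂) ∧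
    (∀ n, family (G₁ n) = family G₂ ↔ ¬ p n) ∧ ¬ ComputablePred p := by
  classical
  obtain ⟨S, iS, Φ, K, z, hc, _, hund⟩ := exists_base
  let t : Option ((S ⊕ S × S) ⊕ S) → ℕ := fun a => 8 + (Fintype.equivFin _ a : ℕ)
  have ht : Function.Injective t := by
    intro a b h
    have h' : (Fintype.equivFin _ a : ℕ) = (Fintype.equivFin _ b : ℕ) := by
      simpa [t] using h
    exact (Fintype.equivFin _).injective (Fin.ext h')
  have hge : ∀ x ∈ tT t, 8 ≤ x := by
    intro x hx
    obtain ⟨a, _, rfl⟩ := Finset.mem_image.1 hx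
    exact Nat.le_add_right _ _
  let G₂ : Grammar := mkG (S2 Φ K t) (S2_finite Φ K t) (tT t) hge (S2_ter Φ K t) (S2_ne Φ K t)
  let G₁ : ℕ → Grammar := fun n => mkG (S1 Φ K t (z n)) (S1_finite Φ K t (z n)) (tT t) hge
    (S1_ter Φ K t (z n)) (S1_ne Φ K t (z n))
  let l2 : List (ℕ × List ℕ) := ((S2_finite Φ K t).toFinset.image encRule).toList
  let lF : List (ℕ × List ℕ) := ((SF_finite t).toFinset.image encRule).toList
  let F : ℕ → Code × Code := fun n =>
    ((List.range 8, (tT t).toList,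
      (0, pre t ++ (z n).map (fun s => ql t (.inl s)) ++ [6]) :: (l2 ++ lF), 0),
     (List.range 8, (tT t).toList, l2, 0))
  refine ⟨F, G₁, G₂, fun n => Sol Φ K (z n), ?_, ?_, ?_, hund⟩
  · have h1 : Computable (fun n => (pre t ++ (z n).map (fun s => ql t (.inl s)) ++ [6] : List ℕ)) :=
      Computable.list_append.comp
        (Computable.list_append.comp (Computable.const _) (hc (fun s => ql t (.inl s))))
        (Computable.const _)
    refine Computable.pair ?_ (Computable.const _)
    refine Computable.pair (Computable.const _) (Computable.pair (Computable.const _)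
      (Computable.pair ?_ (Computable.const _)))
    exact Computable.list_cons.comp (Computable.pair (Computable.const 0) h1) (Computable.const _)
  · intro n
    have hr8 : (List.range 8).toFinset = Finset.range 8 := by
      ext x; simp
    refine ⟨⟨hr8, Finset.toList_toFinset _, ?_, rfl⟩, ⟨hr8, Finset.toList_toFinset _, ?_, rfl⟩⟩
    · change ((0, pre t ++ (z n).map (fun s => ql t (.inl s)) ++ [6]) :: (l2 ++ lF)).toFinset =
        (S1_finite Φ K t (z n)).toFinset.image encRule
      ext p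
      simp only [List.mem_toFinset, List.mem_cons, List.mem_append, l2, lF, Finset.mem_toList,
        Finset.mem_image, Set.Finite.mem_toFinset]
      have he : encRule (sr t (z n)) =
          (0, pre t ++ (z n).map (fun s => ql t (.inl s)) ++ [6]) := by
        simp [encRule, sr, sw, code]
      constructor
      · rintro (rfl | ⟨r, hr, rfl⟩ | ⟨r, hr, rfl⟩)
        · exact ⟨sr t (z n), Or.inr (Or.inl rfl), he⟩
        · exact ⟨r, Or.inl hr, rfl⟩
        · exact ⟨r, Or.inr (Or.inr hr), rfl⟩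
      · rintro ⟨r, hr | rfl | hr, rfl⟩
        · exact Or.inr (Or.inl ⟨r, hr, rfl⟩)
        · exact Or.inl he
        · exact Or.inr (Or.inr ⟨r, hr, rfl⟩)
    · change l2.toFinset = (S2_finite Φ K t).toFinset.image encRule
      exact Finset.toList_toFinset _
  · intro n
    constructor
    · intro h hsol
      have h1 : {w | Der (ExR (S1 Φ K t (z n))) [Sum.inl NT.S] w} ∈ family (G₁ n) :=
        (mem_family _).2 ⟨id, genR_id (S1_ter Φ K t (z n))⟩
      rw [h] at h1
      obtain ⟨τ, hτ⟩ := (mem_family _).1 h1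
      exact ne_family Φ K t ht hsol τ hτ
    · intro hns
      apply Set.Subset.antisymm
      · intro L hL
        obtain ⟨τ, hτ⟩ := (mem_family _).1 hL
        have hG : IsDat G₂.dat (S2 Φ K t) (tT t) := mkG_dat
        exact (mem_family _).2 ⟨τ, eq_family Φ K t hG hns τ L hτ⟩
      · intro L hL
        obtain ⟨τ, Q, hQ, A, s, R, D, h1, h2, h3, h4, h5⟩ := (mem_family _).1 hL
        exact (mem_family _).2 ⟨τ, Q, hQ, A, s, R, D, h1, h2, fun q α h => Or.inl (h3 q α h),
          h4, h5⟩

end final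

/-- Family equivalence of context-free grammar forms is undecidable. First part: the set of pairs
of (codes of) grammars with `L(G₁) = L(G₂)` is not recursive. Second part: there is not even a
computable function giving the right answer on all pairs of codes of grammars (with arbitrary
values at codes which describe no grammar). -/
theorem result :
    (¬ ComputablePred (fun c : Code × Code => ∃ G₁ G₂ : Grammar,
      Encodes c.1 G₁ ∧ Encodes c.2 G₂ ∧ family G₁ = family G₂)) ∧
    ¬ ∃ f : Code × Code → Bool, Computable f ∧ ∀ (c : Code × Code) (G₁ G₂ : Grammar),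
      Encodes c.1 G₁ → Encodes c.2 G₂ → (f c = true ↔ family G₁ = family G₂) := by
  have main : ¬ ∃ f : Code × Code → Bool, Computable f ∧ ∀ (c : Code × Code) (G₁ G₂ : Grammar),
      Encodes c.1 G₁ → Encodes c.2 G₂ → (f c = true ↔ family G₁ = family G₂) := by
    rintro ⟨f, hf, hfG⟩
    obtain ⟨F, G₁, G₂, p, hF, hE, hp, hund⟩ := exists_pairs
    apply hund
    have h1 : ComputablePred (fun n => (f (F n)) = true) :=
      ComputablePred.computable_iff.2 ⟨fun n => f (F n), hf.comp hF, rfl⟩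
    have h2 := h1.not
    refine h2.of_eq ?_
    intro n
    rw [hfG _ _ _ (hE n).1 (hE n).2, hp n, not_not]
  refine ⟨?_, main⟩
  intro h
  apply main
  obtain ⟨f, hf, hfe⟩ := ComputablePred.computable_iff.1 h
  refine ⟨f, hf, ?_⟩
  intro c G₁ G₂ h1 h2
  have huniq : ∀ (c : Code) (G G' : Grammar), Encodes c G → Encodes c G' → G = G' := by
    rintro c ⟨N, T, S, P, _, _, _⟩ ⟨N', T', S', P', _, _, _⟩ ⟨h1, h2, h3, h4⟩ ⟨h5, h6, h7, h8⟩
    dsimp only at h1 h2 h3 h4 h5 h6 h7 h8
    subst h1 h2 h3 h4 h5 h6 h7 h8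
    rfl
  have h3 := congrFun hfe c
  rw [← h3]
  constructor
  · rintro ⟨G, G', h4, h5, h6⟩
    rw [huniq _ _ _ h1 h4, huniq _ _ _ h2 h5]
    exact h6
  · intro h4
    exact ⟨G₁, G₂, h1, h2, h4⟩

end Pool.Agent.Results.MP_3cd25e_lc.Undecidable
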